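import Pool.Agent.Helper9.TC.Defs

/-!
# MP_1181b9_nt, block D: rough divisors and the estimate TT (helper14)
-/

set_option autoImplicit false
open Finset Real

namespace Pool.Agent.Helper14.TC

open Pool.Agent.Helper9.TC

open Classical in
lemma card_rough_aux (z : ℕ) : ∀ t : ℕ, ∀ r : ℕ, 0 < t → t < (z + 1) ^ (r + 1) →
    (t.divisors.filter (Rough z)).card ≤ 2 ^ r := by
  intro t
  induction t using Nat.strong_induction_on with
  | _ t ih =>
  intro r ht h
  by_cases hp : ∃ p : ℕ, p.Prime ∧ p ∣ t ∧ z < p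
  · obtain ⟨p, hp, ⟨s, rfl⟩, hzp⟩ := hp
    have hs : 0 < s := Nat.pos_of_mul_pos_left ht |> fun h => by
      rcases Nat.eq_zero_or_pos s with h0 | h0
      · subst h0; simp at ht
      · exact h0
    cases r with
    | zero =>
      exfalso
      have h1 : p ≤ p * s := Nat.le_mul_of_pos_right p hs
      simp only [zero_add, pow_one] at h
      omega
    | succ r =>
      have h1 : s < (z + 1) ^ (r + 1) := by
        have h2 : (z + 1) * s ≤ p * s := Nat.mul_le_mul_right s hzp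
        have h3 : (z + 1) * s < (z + 1) * (z + 1) ^ (r + 1) := by
          calc (z + 1) * s ≤ p * s := h2
            _ < (z + 1) ^ (r + 1 + 1) := h
            _ = (z + 1) * (z + 1) ^ (r + 1) := by ring
        exact Nat.lt_of_mul_lt_mul_left h3
      have h4 : s < p * s := by
        have := hp.two_le
        nlinarith
      have h5 := ih s h4 r hs h1
      have h6 : (p * s).divisors.filter (Rough z) ⊆
          (s.divisors.filter (Rough z)) ∪ (s.divisors.filter (Rough z)).image (p * ·) := by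
        intro k hk
        rw [mem_filter, Nat.mem_divisors] at hk
        obtain ⟨⟨hk1, hk2⟩, hk3⟩ := hk
        rw [mem_union]
        by_cases hpk : p ∣ k
        · right
          obtain ⟨k', rfl⟩ := hpk
          rw [mem_image]
          refine ⟨k', ?_, rfl⟩
          rw [mem_filter, Nat.mem_divisors]
          refine ⟨⟨Nat.dvd_of_mul_dvd_mul_left hp.pos hk1, hs.ne'⟩, ?_⟩
          intro q hq hqk
          exact hk3 q hq (hqk.mul_left p)
        · left
          rw [mem_filter, Nat.mem_divisors]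
          refine ⟨⟨?_, hs.ne'⟩, hk3⟩
          exact (Nat.Coprime.symm ((Nat.Prime.coprime_iff_not_dvd hp).2 hpk)).dvd_of_dvd_mul_left hk1
      calc ((p * s).divisors.filter (Rough z)).card
          ≤ _ := card_le_card h6
        _ ≤ (s.divisors.filter (Rough z)).card +
            ((s.divisors.filter (Rough z)).image (p * ·)).card := card_union_le _ _
        _ ≤ 2 ^ r + 2 ^ r := Nat.add_le_add h5 (card_image_le.trans h5)
        _ = 2 ^ (r + 1) := by ring
  · push Not at hp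
    have h1 : t.divisors.filter (Rough z) ⊆ {1} := by
      intro k hk
      rw [mem_filter, Nat.mem_divisors] at hk
      obtain ⟨⟨hk1, hk2⟩, hk3⟩ := hk
      rw [mem_singleton]
      by_contra hne
      obtain ⟨q, hq, hqk⟩ := Nat.exists_prime_and_dvd hne
      have h2 := hp q hq (hqk.trans hk1)
      have h3 := hk3 q hq hqk
      omega
    calc (t.divisors.filter (Rough z)).card ≤ ({1} : Finset ℕ).card := card_le_card h1
      _ = 1 := card_singleton 1
      _ ≤ 2 ^ r := Nat.one_le_two_pow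

theorem card_rough_divisors (z t r : ℕ) (ht : 0 < t) (h : t < (z + 1) ^ (r + 1)) :
    Nat.card {k : ℕ // k ∣ t ∧ Rough z k} ≤ 2 ^ r := by
  classical
  have h1 := card_rough_aux z t r ht h
  rw [Nat.subtype_card (t.divisors.filter (Rough z))]
  · exact h1
  · intro x
    simp [ht.ne']

/-- naturals of fixed parity in an interval -/
lemma card_parity (T : Finset ℕ) (a b : ℝ) (hab : a ≤ b) (c : ℕ) (hc : ∀ t ∈ T, t % 2 = c)
    (h : ∀ t ∈ T, a < t ∧ (t : ℝ) < b) : (T.card : ℝ) ≤ (b - a) / 2 + 1 := by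
  rcases T.eq_empty_or_nonempty with hT | hT
  · subst hT
    simp only [card_empty, Nat.cast_zero]
    linarith
  · set M := T.max' hT with hM
    set m := T.min' hT with hm
    have hMT : M ∈ T := T.max'_mem hT
    have hmT : m ∈ T := T.min'_mem hT
    have hmM : m ≤ M := T.min'_le _ hMT
    have h1 : T.card ≤ (Finset.Icc (m / 2) (M / 2)).card := by
      refine card_le_card_of_injOn (fun t => t / 2) ?_ ?_
      · intro t ht
        simp only [coe_Icc, Set.mem_Icc]
        exact ⟨Nat.div_le_div_right (T.min'_le _ ht), Nat.div_le_div_right (T.le_max' _ ht)⟩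
      · intro t ht s hs hts
        have h2 := hc t ht
        have h3 := hc s hs
        simp only at hts
        omega
    rw [Nat.card_Icc] at h1
    have h2 := hc M hMT
    have h3 := hc m hmT
    have h4 : 2 * T.card ≤ M - m + 2 := by omega
    have h5 : 2 * T.card + m ≤ M + 2 := by omega
    have h6 : 2 * (T.card : ℝ) + m ≤ M + 2 := by exact_mod_cast h5
    have h7 := (h M hMT).2
    have h8 := (h m hmT).1
    linarith

lemma rough_odd {z k : ℕ} (hz : 2 ≤ z) (hk : Rough z k) : k % 2 = 1 := by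
  rcases Nat.mod_two_eq_zero_or_one k with h | h
  · exfalso
    have := hk 2 Nat.prime_two (Nat.dvd_of_mod_eq_zero h)
    omega
  · exact h

lemma mem_hits {z n p : ℕ} {x : ℕ × ℕ} (hx : x ∈ hits z n p) : Hit z n p x.1 x.2 := by
  classical
  unfold hits at hx
  exact (mem_filter.1 hx).2

/-- part (a): hits with small `k` -/
lemma hits_small (z n p r : ℕ) (hp : z < p) (L : ℝ) (hL : 0 ≤ L)
    (hr : ((n : ℝ) + 1) ^ 2 / (p : ℝ) ^ 2 ≤ ((z : ℝ) + 1) ^ (r + 1))
    (A : Finset (ℕ × ℕ)) (hA : ∀ x ∈ A, Hit z n p x.1 x.2 ∧ (p : ℝ) * x.1 ≤ L * n) :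
    (A.card : ℝ) ≤ 2 ^ r * ((2 * (n : ℝ) + 1 + L * n) / (2 * (p : ℝ) ^ 2) + 1) := by
  classical
  have hp0 : (0 : ℝ) < p := by
    have : 0 < p := by omega
    exact_mod_cast this
  set f : ℕ × ℕ → ℕ := fun x => x.1 * x.2 with hf
  have key : ∀ x ∈ A, (((n : ℝ) ^ 2 - L * n) / (p : ℝ) ^ 2 < f x ∧
      ((f x : ℕ) : ℝ) < ((n : ℝ) + 1) ^ 2 / (p : ℝ) ^ 2) := by
    intro x hx
    obtain ⟨⟨h1, h2, h3, h4, h5, h6⟩, h7⟩ := hA x hx
    have h5' : (n : ℝ) ^ 2 < p * x.1 * (1 + p * x.2) := by exact_mod_cast h5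
    have h6' : (p : ℝ) * x.1 * (1 + p * x.2) < ((n : ℝ) + 1) ^ 2 := by exact_mod_cast h6
    have h8 : ((f x : ℕ) : ℝ) = x.1 * x.2 := by simp [hf]
    have h9 : (0 : ℝ) ≤ x.1 := Nat.cast_nonneg _
    rw [h8, div_lt_iff₀ (by positivity), lt_div_iff₀ (by positivity)]
    constructor <;> nlinarith [mul_nonneg hp0.le h9]
  have h1 : A.card ≤ 2 ^ r * (A.image f).card := by
    apply card_le_mul_card_image
    intro t ht
    obtain ⟨x, hx, rfl⟩ := mem_image.1 ht
    obtain ⟨⟨g1, g2, g3, g4, g5, g6⟩, g7⟩ := hA x hx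
    have ht0 : 0 < f x := Nat.mul_pos g1 g2
    have ht1 : f x < (z + 1) ^ (r + 1) := by
      have h2 := (key x hx).2.trans_le hr
      exact_mod_cast h2
    refine le_trans ?_ (card_rough_aux z (f x) r ht0 ht1)
    refine card_le_card_of_injOn (fun y => y.1) ?_ ?_
    · intro y hy
      rw [mem_coe, mem_filter] at hy
      obtain ⟨⟨k1, k2, k3, k4, k5, k6⟩, k7⟩ := hA y hy.1
      rw [mem_coe, mem_filter, Nat.mem_divisors]
      refine ⟨⟨?_, ht0.ne'⟩, k4⟩
      rw [← hy.2]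
      exact Nat.dvd_mul_right _ _
    · intro y hy y' hy' hyy
      rw [mem_coe, mem_filter] at hy hy'
      obtain ⟨⟨k1, k2, k3, k4, k5, k6⟩, k7⟩ := hA y hy.1
      have e1 : y.1 * y.2 = y'.1 * y'.2 := hy.2.trans hy'.2.symm
      simp only at hyy
      rw [← hyy] at e1
      exact Prod.ext hyy (Nat.eq_of_mul_eq_mul_left k1 e1)
  have h2 : ((A.image f).card : ℝ) ≤
      (((n : ℝ) + 1) ^ 2 / (p : ℝ) ^ 2 - ((n : ℝ) ^ 2 - L * n) / (p : ℝ) ^ 2) / 2 + 1 := by
    apply card_parity _ _ _ _ 0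
    · intro t ht
      obtain ⟨x, hx, rfl⟩ := mem_image.1 ht
      obtain ⟨⟨g1, g2, g3, g4, g5, g6⟩, g7⟩ := hA x hx
      have := g3.mul_left x.1
      exact Nat.even_iff.1 this
    · intro t ht
      obtain ⟨x, hx, rfl⟩ := mem_image.1 ht
      exact key x hx
    · apply div_le_div_of_nonneg_right _ (by positivity)
      nlinarith [mul_nonneg hL (Nat.cast_nonneg (α := ℝ) n), Nat.cast_nonneg (α := ℝ) n]
  have h3 : (A.card : ℝ) ≤ 2 ^ r * ((A.image f).card : ℝ) := by exact_mod_cast h1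
  refine h3.trans ?_
  apply mul_le_mul_of_nonneg_left _ (by positivity)
  refine h2.trans (le_of_eq ?_)
  field_simp
  ring

/-- harmonic sums -/
lemma sum_inv_le (N : ℕ) (x : ℝ) (hx : 0 ≤ x) (hN : (N : ℝ) ≤ x) :
    ∑ i ∈ Finset.Icc 1 N, 1 / (i : ℝ) ≤ 1 + Real.log (1 + x) := by
  have h1 := harmonic_le_one_add_log N
  rw [harmonic_eq_sum_Icc] at h1
  push_cast at h1
  simp only [one_div]
  refine h1.trans ?_
  have : Real.log N ≤ Real.log (1 + x) := by
    rcases Nat.eq_zero_or_pos N with h0 | h0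
    · subst h0
      simp only [Nat.cast_zero, Real.log_zero]
      exact Real.log_nonneg (by linarith)
    · apply Real.log_le_log
      · exact_mod_cast h0
      · linarith
  linarith

/-- part (b): hits with large `k` -/
lemma hits_large (z n p : ℕ) (hz : 2 ≤ z) (hn : 1 ≤ n) (hp : z < p) (L : ℝ) (hL : 0 < L)
    (B : Finset (ℕ × ℕ)) (hB : ∀ x ∈ B, Hit z n p x.1 x.2 ∧ L * n < (p : ℝ) * x.1) :
    (B.card : ℝ) ≤ ((n : ℝ) + 1) ^ 2 / (L * n * p) / 2 +
      (2 * (n : ℝ) + 1) / (4 * (p : ℝ) ^ 2) *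
        (1 + Real.log (1 + ((n : ℝ) + 1) ^ 2 / (L * n * p) / 2)) := by
  classical
  have hp0 : (0 : ℝ) < p := by
    have : 0 < p := by omega
    exact_mod_cast this
  have hn0 : (0 : ℝ) < n := by exact_mod_cast hn
  set J : ℝ := ((n : ℝ) + 1) ^ 2 / (L * n * p) with hJ
  have hJ0 : 0 < J := by positivity
  set N : ℕ := ⌊J / 2⌋₊ with hN
  have hNJ : (N : ℝ) ≤ J / 2 := Nat.floor_le (by positivity)
  have hmem : ∀ x ∈ B, x.2 / 2 ∈ Finset.Icc 1 N := by
    intro x hx
    obtain ⟨⟨h1, h2, h3, h4, h5, h6⟩, h7⟩ := hB x hx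
    obtain ⟨i, hi⟩ := h3
    have h6' : (p : ℝ) * x.1 * (1 + p * x.2) < ((n : ℝ) + 1) ^ 2 := by exact_mod_cast h6
    have hj : (x.2 : ℝ) < J := by
      rw [hJ, lt_div_iff₀ (by positivity)]
      have h8 : (0 : ℝ) < x.2 := by exact_mod_cast h2
      have h9 : L * n * (1 + p * x.2) ≤ p * x.1 * (1 + p * x.2) := by
        apply mul_le_mul_of_nonneg_right h7.le (by positivity)
      have h10 : 0 < L * n := by positivity
      nlinarith
    rw [Finset.mem_Icc]
    refine ⟨by omega, ?_⟩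
    apply Nat.le_floor
    have : ((x.2 / 2 : ℕ) : ℝ) = x.2 / 2 := by
      have e1 : x.2 / 2 = i := by omega
      rw [e1]
      have e2 : (x.2 : ℝ) = i + i := by exact_mod_cast hi
      rw [e2]; ring
    rw [this]
    linarith
  have h1 : B.card = ∑ i ∈ Finset.Icc 1 N, (B.filter (fun x => x.2 / 2 = i)).card :=
    card_eq_sum_card_fiberwise hmem
  have h2 : ∀ i ∈ Finset.Icc 1 N, ((B.filter (fun x => x.2 / 2 = i)).card : ℝ) ≤
      (2 * (n : ℝ) + 1) / (4 * (p : ℝ) ^ 2) * (1 / (i : ℝ)) + 1 := by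
    intro i hi
    have hi0 : (0 : ℝ) < i := by
      have := (Finset.mem_Icc.1 hi).1
      exact_mod_cast this
    set F := B.filter (fun x => x.2 / 2 = i) with hF
    have hF2 : ∀ x ∈ F, x.2 = 2 * i := by
      intro x hx
      obtain ⟨hx1, hx2⟩ := mem_filter.1 hx
      obtain ⟨⟨g1, g2, g3, g4, g5, g6⟩, g7⟩ := hB x hx1
      obtain ⟨i', hi'⟩ := g3
      omega
    have h3 : (F.image Prod.fst).card = F.card := by
      apply card_image_of_injOn
      intro x hx y hy hxy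
      exact Prod.ext hxy ((hF2 x hx).trans (hF2 y hy).symm)
    have h4 : ((F.image Prod.fst).card : ℝ) ≤
        (((n : ℝ) + 1) ^ 2 / (p * (1 + p * (2 * i))) - (n : ℝ) ^ 2 / (p * (1 + p * (2 * i)))) / 2
          + 1 := by
      apply card_parity _ _ _ _ 1
      · intro t ht
        obtain ⟨x, hx, rfl⟩ := mem_image.1 ht
        obtain ⟨⟨g1, g2, g3, g4, g5, g6⟩, g7⟩ := hB x (mem_filter.1 hx).1
        exact rough_odd hz g4
      · intro t ht
        obtain ⟨x, hx, rfl⟩ := mem_image.1 ht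
        obtain ⟨⟨g1, g2, g3, g4, g5, g6⟩, g7⟩ := hB x (mem_filter.1 hx).1
        have g5' : (n : ℝ) ^ 2 < p * x.1 * (1 + p * x.2) := by exact_mod_cast g5
        have g6' : (p : ℝ) * x.1 * (1 + p * x.2) < ((n : ℝ) + 1) ^ 2 := by exact_mod_cast g6
        have g8 : (x.2 : ℝ) = 2 * i := by exact_mod_cast hF2 x hx
        rw [g8] at g5' g6'
        rw [div_lt_iff₀ (by positivity), lt_div_iff₀ (by positivity)]
        constructor <;> nlinarith
      · apply div_le_div_of_nonneg_right _ (by positivity)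
        nlinarith
    rw [h3] at h4
    refine h4.trans ?_
    have h5 : (((n : ℝ) + 1) ^ 2 / (p * (1 + p * (2 * i))) - (n : ℝ) ^ 2 / (p * (1 + p * (2 * i)))) / 2
        = (2 * (n : ℝ) + 1) / (2 * p * (1 + p * (2 * i))) := by
      field_simp
      ring
    rw [h5]
    have h6 : (2 * (n : ℝ) + 1) / (2 * p * (1 + p * (2 * i))) ≤
        (2 * (n : ℝ) + 1) / (4 * (p : ℝ) ^ 2) * (1 / (i : ℝ)) := by
      rw [div_mul_div_comm, mul_one]
      apply div_le_div_of_nonneg_left (by positivity) (by positivity)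
      nlinarith
    linarith
  have h3 : (B.card : ℝ) ≤ ∑ i ∈ Finset.Icc 1 N,
      ((2 * (n : ℝ) + 1) / (4 * (p : ℝ) ^ 2) * (1 / (i : ℝ)) + 1) := by
    rw [h1]
    push_cast
    exact Finset.sum_le_sum h2
  refine h3.trans ?_
  rw [Finset.sum_add_distrib, ← Finset.mul_sum]
  have h4 := sum_inv_le N (J / 2) (by positivity) hNJ
  have h5 : (2 * (n : ℝ) + 1) / (4 * (p : ℝ) ^ 2) * ∑ i ∈ Finset.Icc 1 N, 1 / (i : ℝ) ≤
      (2 * (n : ℝ) + 1) / (4 * (p : ℝ) ^ 2) * (1 + Real.log (1 + J / 2)) :=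
    mul_le_mul_of_nonneg_left h4 (by positivity)
  have h6 : ∑ i ∈ Finset.Icc 1 N, (1 : ℝ) = N := by simp
  rw [h6]
  linarith

theorem hits_TT (z n p r : ℕ) (hz : 2 ≤ z) (hn : 1 ≤ n) (hp : z < p)
    (hr : ((n : ℝ) + 1) ^ 2 / (p : ℝ) ^ 2 ≤ ((z : ℝ) + 1) ^ (r + 1)) :
    ((hits z n p).card : ℝ) ≤
      √((2 : ℝ) ^ r) * (((n : ℝ) + 1) ^ 2 / n) / (p * √p) +
      2 ^ r * ((2 * (n : ℝ) + 1) / (2 * (p : ℝ) ^ 2) + 1) +
      (2 * (n : ℝ) + 1) / (4 * (p : ℝ) ^ 2) *
        (1 + Real.log (1 + √((2 : ℝ) ^ r) * ((n : ℝ) + 1) ^ 2 / (2 * n * (p * √p)))) := by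
  classical
  have hp0 : (0 : ℝ) < p := by
    have : 0 < p := by omega
    exact_mod_cast this
  have hn0 : (0 : ℝ) < n := by exact_mod_cast hn
  set s : ℝ := √((2 : ℝ) ^ r) with hs
  have hs0 : 0 < s := Real.sqrt_pos.2 (by positivity)
  have hs2 : s * s = 2 ^ r := Real.mul_self_sqrt (by positivity)
  set q : ℝ := √(p : ℝ) with hq
  have hq0 : 0 < q := Real.sqrt_pos.2 hp0
  have hq2 : q * q = p := Real.mul_self_sqrt hp0.le
  set L : ℝ := q / s with hL
  have hL0 : 0 < L := by positivity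
  have h1 := hits_small z n p r hp L hL0.le hr
    ((hits z n p).filter (fun x => (p : ℝ) * x.1 ≤ L * n))
    (fun x hx => ⟨mem_hits (mem_filter.1 hx).1, (mem_filter.1 hx).2⟩)
  have h2 := hits_large z n p hz hn hp L hL0
    ((hits z n p).filter (fun x => ¬ (p : ℝ) * x.1 ≤ L * n))
    (fun x hx => ⟨mem_hits (mem_filter.1 hx).1, not_le.1 (mem_filter.1 hx).2⟩)
  have h3 : ((hits z n p).card : ℝ) =
      (((hits z n p).filter (fun x => (p : ℝ) * x.1 ≤ L * n)).card : ℝ) +
      (((hits z n p).filter (fun x => ¬ (p : ℝ) * x.1 ≤ L * n)).card : ℝ) := by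
    rw [← Nat.cast_add, card_filter_add_card_filter_not]
  rw [h3]
  have h4 : ((n : ℝ) + 1) ^ 2 / (L * n * p) / 2 = s * ((n : ℝ) + 1) ^ 2 / (2 * n * (p * q)) := by
    rw [hL]
    field_simp
  rw [h4] at h2
  have h5 : (2 : ℝ) ^ r * ((2 * (n : ℝ) + 1 + L * n) / (2 * (p : ℝ) ^ 2) + 1)
      = 2 ^ r * ((2 * (n : ℝ) + 1) / (2 * (p : ℝ) ^ 2) + 1) + s * n / (2 * (p * q)) := by
    rw [← hs2, hL, ← hq2]
    field_simp
    ring
  rw [h5] at h1
  have h6 : s * n / (2 * (p * q)) + s * ((n : ℝ) + 1) ^ 2 / (2 * n * (p * q)) ≤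
      s * (((n : ℝ) + 1) ^ 2 / n) / (p * q) := by
    have h7 : s * (((n : ℝ) + 1) ^ 2 / n) / (p * q) -
        (s * n / (2 * (p * q)) + s * ((n : ℝ) + 1) ^ 2 / (2 * n * (p * q)))
        = s * (2 * n + 1) / (2 * n * (p * q)) := by
      field_simp
      ring
    have h8 : 0 ≤ s * (2 * n + 1) / (2 * n * (p * q)) := by positivity
    linarith
  linarith

end Pool.Agent.Helper14.TC
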